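import Pool.Agent.Lib.MP_47b218_nt.W.Rec

/-! Automaticity modulo powers of two holds exactly for eventually periodic odd weights. -/

namespace Pool.Agent.Lib.MP_47b218_nt.W

open Matrix

/-- The weighted digit sum. -/
def sw (w : ℕ → ℤ) (m : ℕ) : ℤ := (m.bitIndices.map w).sum

/-- The shift. -/
def T {α : Type} (w : ℕ → α) : ℕ → α := fun i => w (i + 1)

lemma sw0 (w : ℕ → ℤ) (m : ℕ) : sw w (2 * m) = sw (T w) m := by
  simp only [sw, Nat.bitIndices_two_mul, List.map_map]; rfl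

lemma sw1 (w : ℕ → ℤ) (m : ℕ) : sw w (2 * m + 1) = sw (T w) m + w 0 := by
  simp only [sw, Nat.bitIndices_two_mul_add_one, List.map_cons, List.sum_cons, List.map_map]
  rw [add_comm]; rfl

/-- All weights are odd. -/
def Od (w : ℕ → ℤ) : Prop := ∀ j, Odd (w j)

lemma Od.T {w : ℕ → ℤ} (h : Od w) : Od (T w) := fun j => h (j + 1)

lemma odd_b {g e c : ℤ} (h : Odd g) : Odd (g - 2 * c * e) :=
  h.sub_even (by rw [mul_assoc]; exact even_two_mul _)

lemma parity (n : ℕ) : ∀ w, Od w → Odd (GG (sw w) n) ∧ Odd (KK (sw w) (n + 1)) := by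
  induction n using Nat.strong_induction_on with
  | _ n ih =>
    intro w hw
    have hneg : ∀ k : ℕ, Odd ((-1 : ℤ) ^ k) := fun k => Odd.pow (by decide)
    have hK1 : ∀ s : ℕ → ℤ, Odd (KK s (0 + 1)) := fun s => by rw [KK_succ]; simp
    rcases Nat.eq_zero_or_pos n with rfl | hn
    · exact ⟨by simp [GG], hK1 _⟩
    rcases Nat.even_or_odd' n with ⟨q, rfl | rfl⟩
    · obtain ⟨hG, hK⟩ := ih q (by omega) _ hw.T
      constructor
      · rw [G_even (sw0 w) (sw1 w)]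
        exact ((hneg q).mul (odd_b hG)).mul hG
      · rw [show 2 * q + 1 = (q + 1) + q by ring,
          K_rec (sw0 w) (sw1 w) _ _ (by omega) (by omega) (ne_zero_of_odd (odd_b hG))]
        exact hK.mul (odd_b hG)
    · obtain ⟨hG, hK⟩ := ih q (by omega) _ hw.T
      refine ⟨by rw [G_odd (sw0 w) (sw1 w)]; exact ((hw 0).mul (hneg q)).mul hK.pow, ?_⟩
      have hG' : Odd (GG (sw (T w)) (q + 1)) := by
        rcases Nat.eq_zero_or_pos q with rfl | hq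
        · have := G_odd (sw0 (T w)) (sw1 (T w)) 0
          rw [show 0 + 1 = 2 * 0 + 1 from rfl, this]
          exact ((hw.T 0).mul (hneg 0)).mul (hK1 _).pow
        · exact (ih (q + 1) (by omega) _ hw.T).1
      rw [show 2 * q + 1 + 1 = (q + 1) + (q + 1) by ring,
        K_rec (sw0 w) (sw1 w) _ _ (by omega) (by omega) (ne_zero_of_odd (odd_b hG'))]
      exact hK.mul (odd_b hG')

lemma b_odd {w : ℕ → ℤ} (hw : Od w) (n : ℕ) :
    Odd (GG (sw (T w)) n - 2 * w 0 * EE (sw (T w)) n) := odd_b (parity n _ hw.T).1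

lemma hHe {w : ℕ → ℤ} (hw : Od w) (n : ℕ) : HH (sw w) (2 * n) = HH (sw (T w)) n *
    (GG (sw (T w)) n - 2 * w 0 * EE (sw (T w)) n) - w 0 ^ 2 * KK (sw (T w)) n * EE (sw (T w)) n := by
  rw [two_mul]; exact H_rec (sw0 w) (sw1 w) n n le_rfl (by omega) (ne_zero_of_odd (b_odd hw n))

lemma hHo {w : ℕ → ℤ} (hw : Od w) (n : ℕ) : HH (sw w) (2 * n + 1) = HH (sw (T w)) (n + 1) *
    (GG (sw (T w)) n - 2 * w 0 * EE (sw (T w)) n) -
      w 0 ^ 2 * KK (sw (T w)) (n + 1) * EE (sw (T w)) n := by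
  rw [show 2 * n + 1 = (n + 1) + n by ring]
  exact H_rec (sw0 w) (sw1 w) (n + 1) n (by omega) le_rfl (ne_zero_of_odd (b_odd hw n))

lemma hKe {w : ℕ → ℤ} (hw : Od w) (n : ℕ) : KK (sw w) (2 * n) = KK (sw (T w)) n *
    (GG (sw (T w)) n - 2 * w 0 * EE (sw (T w)) n) := by
  rw [two_mul]; exact K_rec (sw0 w) (sw1 w) n n le_rfl (by omega) (ne_zero_of_odd (b_odd hw n))

lemma hKo {w : ℕ → ℤ} (hw : Od w) (n : ℕ) : KK (sw w) (2 * n + 1) = KK (sw (T w)) (n + 1) *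
    (GG (sw (T w)) n - 2 * w 0 * EE (sw (T w)) n) := by
  rw [show 2 * n + 1 = (n + 1) + n by ring]
  exact K_rec (sw0 w) (sw1 w) (n + 1) n (by omega) le_rfl (ne_zero_of_odd (b_odd hw n))

/-- The 2-kernel is finite. -/
def Au (a : ℕ → ℤ) : Prop :=
  Set.Finite {b : ℕ → ℤ | ∃ e r : ℕ, r < 2 ^ e ∧ b = fun n => a (2 ^ e * n + r)}

/-- Finitely many shifts. -/
def EP {α : Type} (a : ℕ → α) : Prop := (Set.range fun j => fun i => a (i + j)).Finite

lemma EP.iff {α : Type} {a : ℕ → α} : EP a ↔ ∃ p N : ℕ, 0 < p ∧ ∀ j ≥ N, a (j + p) = a j := by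
  constructor
  · intro h
    obtain ⟨x, y, hxy, e⟩ := Set.Finite.exists_lt_map_eq_of_forall_mem
      (f := fun j : ℕ => fun i => a (i + j)) (fun j => Set.mem_range_self j) h
    refine ⟨y - x, x, by omega, fun j hj => ?_⟩
    have := congrFun e (j - x)
    rw [show j + (y - x) = j - x + y by omega, ← this, show j - x + x = j by omega]
  · rintro ⟨p, N, hp, h⟩
    refine ((Set.finite_lt_nat (N + p)).image fun j => fun i => a (i + j)).subset ?_
    rintro _ ⟨j, rfl⟩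
    induction j using Nat.strong_induction_on with
    | _ j ih =>
      by_cases hj : j < N + p
      · exact ⟨j, hj, rfl⟩
      · have := ih (j - p) (by omega)
        simp only at this ⊢
        convert this using 2 with i
        rw [← h (i + (j - p)) (by omega)]
        congr 1; omega

lemma EP.map₂ {α β γ : Type} (f : α → β → γ) {a : ℕ → α} {b : ℕ → β} (ha : EP a) (hb : EP b) :
    EP fun j => f (a j) (b j) := by
  refine (ha.image2 (fun x y i => f (x i) (y i)) hb).subset ?_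
  rintro _ ⟨j, rfl⟩
  exact ⟨_, ⟨j, rfl⟩, _, ⟨j, rfl⟩, rfl⟩

lemma EP.succ {α : Type} {a : ℕ → α} (h : EP a) : EP (T a) := by
  refine h.subset ?_
  rintro _ ⟨j, rfl⟩
  exact ⟨j + 1, rfl⟩

lemma EP.of_succ {α : Type} {a : ℕ → α} (h : EP (T a)) : EP a := by
  refine (h.insert a).subset ?_
  rintro _ ⟨j, rfl⟩
  cases j with
  | zero => exact Or.inl rfl
  | succ j => exact Or.inr ⟨j, rfl⟩

lemma EP.of_rec {α β : Type} [Finite α] (g : α → β → α) {x : ℕ → α} {y : ℕ → β} (hy : EP y)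
    (h : ∀ j, x (j + 1) = g (x j) (y j)) : EP x := by
  refine (Set.finite_univ.image2
    (fun (a : α) (z : ℕ → β) (i : ℕ) => (Nat.rec a (fun i b => g b (z i)) i : α)) hy).subset ?_
  rintro _ ⟨j, rfl⟩
  refine ⟨x j, trivial, _, ⟨j, rfl⟩, funext fun i => ?_⟩
  induction i with
  | zero => simp
  | succ i ih =>
    simp only at ih ⊢
    rw [ih, show i + 1 + j = i + j + 1 by ring, h]

lemma Au.ep {a : ℕ → ℤ} (h : Au a) : EP fun d => a (2 ^ d) := by
  refine (h.image fun b i => b (2 ^ i)).subset ?_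
  rintro _ ⟨j, rfl⟩
  exact ⟨_, ⟨j, 0, by positivity, rfl⟩, funext fun i => by simp [pow_add, mul_comm]⟩

lemma Au.map {a : ℕ → ℤ} (h : Au a) (f : ℤ → ℤ) : Au fun n => f (a n) := by
  refine (h.image fun b i => f (b i)).subset ?_
  rintro _ ⟨e, r, hr, rfl⟩
  exact ⟨_, ⟨e, r, hr, rfl⟩, rfl⟩

theorem au_of_ep {w : ℕ → ℤ} (hw : Od w) (hp : EP w) (m : ℕ) (hm0 : 0 < m) :
    Au fun n => HH (sw w) (n + 1) % (m : ℤ) := by
  have : NeZero m := ⟨hm0.ne'⟩
  let O : Type := (Set.range fun j => fun i => w (i + j))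
  have : Finite O := hp
  let σ : O → O := fun o => ⟨T o.1, by obtain ⟨_, j, rfl⟩ := o; exact ⟨j + 1, funext fun i => by
    simp only [T]; congr 1; ring⟩⟩
  have hO : ∀ o : O, Od o.1 := by rintro ⟨_, j, rfl⟩ i; exact hw _
  let v : (ℕ → ℤ) → ℕ → (Fin 9 → ZMod m) := fun s n =>
    ![(HH s n : ZMod m), (HH s (n + 1) : ZMod m), (KK s n : ZMod m), (KK s (n + 1) : ZMod m),
      (GG s n : ZMod m), (GG s (n + 1) : ZMod m), (EE s n : ZMod m), (EE s (n + 1) : ZMod m),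
      (-1) ^ n]
  let P0 : ZMod m → (Fin 9 → ZMod m) → (Fin 9 → ZMod m) := fun c x =>
    ![x 0 * (x 4 - 2 * c * x 6) - c ^ 2 * x 2 * x 6, x 1 * (x 4 - 2 * c * x 6) - c ^ 2 * x 3 * x 6,
      x 2 * (x 4 - 2 * c * x 6), x 3 * (x 4 - 2 * c * x 6),
      x 8 * (x 4 - 2 * c * x 6) * x 4, c * x 8 * x 3 ^ 2,
      x 8 * (x 4 - 2 * c * x 6) * (2 * x 6), x 8 * x 3 ^ 2, 1]
  let P1 : ZMod m → (Fin 9 → ZMod m) → (Fin 9 → ZMod m) := fun c x =>
    ![x 1 * (x 4 - 2 * c * x 6) - c ^ 2 * x 3 * x 6, x 1 * (x 5 - 2 * c * x 7) - c ^ 2 * x 3 * x 7,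
      x 3 * (x 4 - 2 * c * x 6), x 3 * (x 5 - 2 * c * x 7),
      c * x 8 * x 3 ^ 2, -x 8 * (x 5 - 2 * c * x 7) * x 5,
      x 8 * x 3 ^ 2, -x 8 * (x 5 - 2 * c * x 7) * (2 * x 7), -1]
  have h0 : ∀ w, Od w → ∀ n, v (sw w) (2 * n) = P0 (w 0) (v (sw (T w)) n) := by
    intro w hw n
    ext i
    fin_cases i <;>
      simp [v, P0, hHe hw, hHo hw, hKe hw, hKo hw, G_even (sw0 w) (sw1 w), G_odd (sw0 w) (sw1 w),
        E_even (sw0 w) (sw1 w), E_odd (sw0 w) (sw1 w)]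
  have h1 : ∀ w, Od w → ∀ n, v (sw w) (2 * n + 1) = P1 (w 0) (v (sw (T w)) n) := by
    intro w hw n
    have e : 2 * n + 1 + 1 = 2 * (n + 1) := by ring
    ext i
    fin_cases i <;>
      simp [v, P1, e, hHe hw, hHo hw, hKe hw, hKo hw, G_even (sw0 w) (sw1 w),
        G_odd (sw0 w) (sw1 w), E_even (sw0 w) (sw1 w), E_odd (sw0 w) (sw1 w), pow_succ]
  exact kernel_finite (X := O → Fin 9 → ZMod m) (fun n o => v (sw o.1) n)
    (fun x o => P0 (o.1 0) (x (σ o))) (fun x o => P1 (o.1 0) (x (σ o)))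
    (fun n => funext fun o => h0 _ (hO o) n) (fun n => funext fun o => h1 _ (hO o) n)
    (fun x => ((x ⟨w, 0, rfl⟩ 1).val : ℤ)) (fun n => HH (sw w) (n + 1) % (m : ℤ))
    fun n => (ZMod.val_intCast (HH (sw w) (n + 1))).symm

lemma det_congr {ι : Type} [Fintype ι] [DecidableEq ι] {A B : Matrix ι ι ℤ} {M : ℤ}
    (h : ∀ i j, M ∣ A i j - B i j) : M ∣ det A - det B := by
  rw [← Ideal.mem_span_singleton, ← Ideal.Quotient.eq, RingHom.map_det, RingHom.map_det]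
  congr 1
  ext i j
  exact Ideal.Quotient.eq.2 (Ideal.mem_span_singleton.2 (h i j))

lemma sw_congr {w w' : ℕ → ℤ} {M : ℤ} (h : ∀ j, M ∣ w j - w' j) (m : ℕ) :
    M ∣ sw w m - sw w' m := by
  unfold sw
  induction m.bitIndices with
  | nil => simp
  | cons a l ih =>
    simp only [List.map_cons, List.sum_cons]
    rw [add_sub_add_comm]
    exact dvd_add (h a) ih

lemma HK_congr {s s' : ℕ → ℤ} {M : ℤ} (h : ∀ j, M ∣ s j - s' j) (n : ℕ) :
    M ∣ HH s n - HH s' n ∧ M ∣ KK s n - KK s' n := by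
  have h1 : M ∣ HH s n - HH s' n := det_congr fun i j => h _
  refine ⟨h1, ?_⟩
  unfold KK
  rw [sub_sub_sub_comm]
  exact dvd_sub (det_congr fun i j => by simpa using h _) h1

lemma GE_congr {s s' : ℕ → ℤ} {M : ℤ} (h : ∀ j, M ∣ s j - s' j) (n : ℕ) :
    M ∣ GG s n - GG s' n ∧ M ∣ EE s n - EE s' n :=
  HK_congr (s := dd s) (s' := dd s') (fun j => by
    unfold dd; rw [sub_sub_sub_comm]; exact dvd_sub (h _) (h _)) n

lemma E_two {w w' : ℕ → ℤ} {M : ℤ} (h : ∀ j, M ∣ w j - w' j) (n : ℕ) :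
    2 * M ∣ EE (sw w) (2 * n) - EE (sw w') (2 * n) ∧ Even (EE (sw w) (2 * n)) := by
  rw [E_even (sw0 w) (sw1 w), E_even (sw0 w') (sw1 w')]
  obtain ⟨⟨x, hx⟩, ⟨y, hy⟩⟩ := GE_congr (sw_congr (w := T w) (w' := T w') fun j => h _) n
  obtain ⟨z, hz⟩ := h 0
  rw [sub_eq_iff_eq_add.1 hx, sub_eq_iff_eq_add.1 hy, sub_eq_iff_eq_add.1 hz]
  set g := GG (sw (T w')) n
  set e := EE (sw (T w')) n
  refine ⟨⟨(-1) ^ n * ((x - 2 * (M * z * y + z * e + w' 0 * y)) * (M * y + e) +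
    (g - 2 * w' 0 * e) * y), by ring⟩, (even_two_mul _).mul_left _⟩

lemma key {M : ℤ} (d : ℕ) : ∀ w w' : ℕ → ℤ, Od w → Od w' → (∀ j, M ∣ w j - w' j) →
    2 * M ∣ HH (sw w) (2 ^ (d + 1) + 1) - HH (sw w') (2 ^ (d + 1) + 1) -
      (w (d + 1) - w' (d + 1) + (w (d + 2) - w' (d + 2))) ∧ Even (HH (sw w) (2 ^ (d + 1) + 1)) := by
  induction d with
  | zero =>
    intro w w' hw hw' h
    have e : ∀ w : ℕ → ℤ, HH (sw w) (2 ^ (0 + 1) + 1) =
        2 * w 0 * w 1 * (w 0 + w 1) - w 1 ^ 3 - w 0 ^ 2 * w 2 := by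
      intro w
      have b2 : Nat.bitIndices 2 = [1] := by decide
      have b3 : Nat.bitIndices 3 = [0, 1] := by decide
      have b4 : Nat.bitIndices 4 = [2] := by decide
      show HH (sw w) 3 = _
      simp [HH, det_fin_three, sw, b2, b3, b4]
      ring
    rw [e, e]
    obtain ⟨a, ha⟩ := hw' 0
    obtain ⟨b, hb⟩ := hw' 1
    obtain ⟨c, hc⟩ := hw' 2
    obtain ⟨x, hx⟩ := h 0
    obtain ⟨y, hy⟩ := h 1
    obtain ⟨z, hz⟩ := h 2
    obtain ⟨a', ha'⟩ := hw 0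
    obtain ⟨b', hb'⟩ := hw 1
    obtain ⟨c', hc'⟩ := hw 2
    have h1 : M * x = 2 * (a' - a) := by linarith
    have h2 : M * y = 2 * (b' - b) := by linarith
    constructor
    · refine ⟨x * w 1 * (w 0 + w 1) + w' 0 * y * (w 0 + w 1) + w' 0 * w' 1 * (x + y) -
        y * (2 * (a - a) + 2 * (b' ^ 2 + b' + b' * b + b ^ 2 + b) + b' + b + 2) -
        x * (a' + a + 1) * w 2 - z * (2 * a ^ 2 + 2 * a + 1), ?_⟩
      have f0 : w 0 = M * x + (2 * a + 1) := by linarith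
      have f1 : w 1 = M * y + (2 * b + 1) := by linarith
      have f2 : w 2 = M * z + (2 * c + 1) := by linarith
      simp only [zero_add]
      rw [f0, f1, f2, ha, hb, hc]
      linear_combination (-(M * y) * (2 * b' + M * y + 4 * b + 3)) * h2 -
        (M * x * (M * z + 2 * c + 1)) * h1
    · rw [ha', hb', hc']
      exact ⟨(2 * a' + 1) * (2 * b' + 1) * (2 * a' + 1 + (2 * b' + 1)) -
        (4 * b' ^ 3 + 6 * b' ^ 2 + 3 * b') - ((2 * a' ^ 2 + 2 * a') * (2 * c' + 1) + c') - 1,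
        by ring⟩
  | succ d ih =>
    intro w w' hw hw' h
    have hT : ∀ j, M ∣ T w j - T w' j := fun j => h _
    obtain ⟨⟨x, hx⟩, ⟨A, hA⟩⟩ := ih (T w) (T w') hw.T hw'.T hT
    rw [pow_succ' 2 (d + 1), hHo hw, hHo hw']
    obtain ⟨β, hβ⟩ := b_odd hw' (2 ^ (d + 1))
    obtain ⟨⟨e, he⟩, ⟨E, hE⟩⟩ := E_two hT (2 ^ d)
    rw [← pow_succ'] at he hE
    obtain ⟨⟨g, hg⟩, -⟩ := GE_congr (sw_congr hT) (2 ^ (d + 1))
    obtain ⟨⟨a, ha⟩, ⟨k, hk⟩⟩ := HK_congr (sw_congr hT) (2 ^ (d + 1) + 1)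
    obtain ⟨z, hz⟩ := h 0
    have e1 : T w (d + 1) = w (d + 1 + 1) := rfl
    have e2 : T w' (d + 1) = w' (d + 1 + 1) := rfl
    have e3 : T w (d + 2) = w (d + 1 + 2) := rfl
    have e4 : T w' (d + 2) = w' (d + 1 + 2) := rfl
    rw [e1, e2, e3, e4] at hx
    set H1 := HH (sw (T w)) (2 ^ (d + 1) + 1)
    set H2 := HH (sw (T w')) (2 ^ (d + 1) + 1)
    set K1 := KK (sw (T w)) (2 ^ (d + 1) + 1)
    set K2 := KK (sw (T w')) (2 ^ (d + 1) + 1)
    set G1 := GG (sw (T w)) (2 ^ (d + 1))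
    set G2 := GG (sw (T w')) (2 ^ (d + 1))
    set E1 := EE (sw (T w)) (2 ^ (d + 1))
    set E2 := EE (sw (T w')) (2 ^ (d + 1))
    constructor
    · refine ⟨x + a * β + A * (g - 2 * z * E1 - 4 * w' 0 * e) -
        (z * (w 0 + w' 0) * K1 + w' 0 ^ 2 * k) * E - w' 0 ^ 2 * K2 * e, ?_⟩
      have f1 : G1 = G2 + M * g := by linarith
      have f2 : w 0 = w' 0 + M * z := by linarith
      have f3 : K1 = K2 + M * k := by linarith
      have f4 : E2 = E + E - 2 * M * e := by linarith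
      have f5 : H2 = A + A - M * a := by linarith
      have f6 : G2 = 2 * β + 1 + 2 * w' 0 * E2 := by linarith
      rw [← sub_eq_zero]
      have f7 : w (d + 1 + 1) - w' (d + 1 + 1) + (w (d + 1 + 2) - w' (d + 1 + 2)) =
          M * a - 2 * M * x := by linarith
      rw [f7, f1, f6, f2, f3, f4, f5, hA, hE]
      ring
    · rw [hA, hE]
      exact ⟨A * (G1 - 2 * w 0 * (E + E)) - w 0 ^ 2 * K1 * E, by ring⟩

theorem ep_of_au {w : ℕ → ℤ} (hw : Od w) (k : ℕ)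
    (h : Au fun n => HH (sw w) (n + 1) % 2 ^ (k + 1)) : EP fun j => w j % 2 ^ (k + 1) := by
  induction k with
  | zero =>
    refine EP.iff.2 ⟨1, 0, one_pos, fun j _ => ?_⟩
    simp only [zero_add, pow_one, Int.odd_iff.1 (hw _)]
  | succ k ih =>
    have hd : (2 : ℤ) ^ (k + 1) ∣ 2 ^ (k + 1 + 1) := pow_dvd_pow 2 (by omega)
    have h1 := ih (by simpa only [Int.emod_emod_of_dvd _ hd] using h.map (· % 2 ^ (k + 1)))
    set w' : ℕ → ℤ := fun j => w j % 2 ^ (k + 1) with hw'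
    have hod : Od w' := fun j => by
      rw [Int.odd_iff, hw', Int.emod_emod_of_dvd _ (dvd_pow_self 2 (by omega))]
      exact Int.odd_iff.1 (hw j)
    have hc : ∀ j, (2 : ℤ) ^ (k + 1) ∣ w j - w' j := fun j => Int.dvd_self_sub_emod
    have h2 := (au_of_ep hod h1 (2 ^ (k + 1 + 1)) (by positivity)).ep
    have h3 := (h.ep.map₂ (fun x y : ℤ => ((x - y : ℤ) : ZMod (2 ^ (k + 1 + 1)))) h2).succ
    have h4 : EP (T fun j => ((w j - w' j : ℤ) : ZMod (2 ^ (k + 1 + 1)))) := by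
      refine EP.of_rec (fun x y => y - x) h3 fun d => ?_
      have h5 := (key d w w' hw hod hc).1
      rw [← pow_succ'] at h5
      simp only [T]
      rw [eq_sub_iff_add_eq, ← Int.cast_add, ZMod.intCast_eq_intCast_iff_dvd_sub]
      push_cast
      have h6 := fun x : ℤ => Int.dvd_self_sub_emod (x := x) (m := 2 ^ (k + 1 + 1))
      have h8 := dvd_add (dvd_sub h5 (h6 (HH (sw w) (2 ^ (d + 1) + 1))))
        (h6 (HH (sw w') (2 ^ (d + 1) + 1)))
      refine (dvd_iff_dvd_of_dvd_sub ?_).1 h8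
      rw [show d + 1 + 1 = d + 2 from rfl]
      exact ⟨0, by ring⟩
    have h7 := h4.of_succ.map₂
      (fun x (y : ℤ) => (((x + (y : ZMod (2 ^ (k + 1 + 1)))).val : ℕ) : ℤ)) h1
    convert h7 using 2 with j
    rw [← Int.cast_add, sub_add_cancel, ZMod.val_intCast]
    push_cast
    rfl

theorem main {w : ℕ → ℤ} (hw : Od w) (k : ℕ) : (Au fun n => HH (sw w) (n + 1) % 2 ^ k) ↔
    ∃ p N : ℕ, 0 < p ∧ ∀ j ≥ N, w (j + p) ≡ w j [ZMOD 2 ^ k] := by
  rw [show (∃ p N : ℕ, 0 < p ∧ ∀ j ≥ N, w (j + p) ≡ w j [ZMOD 2 ^ k]) ↔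
    EP fun j => w j % 2 ^ k from (EP.iff (a := fun j => w j % 2 ^ k)).symm]
  cases k with
  | zero =>
    simp only [pow_zero, Int.emod_one]
    refine iff_of_true ((Set.finite_singleton fun _ => 0).subset ?_)
      (EP.iff.2 ⟨1, 0, one_pos, fun _ _ => rfl⟩)
    rintro _ ⟨e, r, -, rfl⟩
    rfl
  | succ k =>
    refine ⟨ep_of_au hw k, fun h => ?_⟩
    have hod : Od fun j => w j % 2 ^ (k + 1) := fun j => by
      rw [Int.odd_iff, Int.emod_emod_of_dvd _ (dvd_pow_self 2 (by omega))]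
      exact Int.odd_iff.1 (hw j)
    have h2 := au_of_ep hod h (2 ^ (k + 1)) (by positivity)
    convert h2 using 2 with n
    push_cast
    exact (Int.modEq_iff_dvd.2 (HK_congr (sw_congr fun j => Int.dvd_self_sub_emod) _).1).symm

end Pool.Agent.Lib.MP_47b218_nt.W
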