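import Pool.Agent.Lib.MP_47b218_nt.Auto

/-! Recurrences for the Hankel determinants of weighted binary digit sums. -/

namespace Pool.Agent.Lib.MP_47b218_nt.W

open Matrix

lemma det_couple' {ι κ : Type} [Fintype ι] [DecidableEq ι] [Fintype κ] [DecidableEq κ]
    (A : Matrix ι ι ℤ) (D : Matrix κ κ ℤ) (c : ℤ) (hD : det D ≠ 0) :
    det (fromBlocks A (c • J ℤ ι κ) (c • J ℤ κ ι) D) =
      det A * det D - c ^ 2 * (det (A + J ℤ ι ι) - det A) * (det (D + J ℤ κ κ) - det D) := by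
  have main : ∀ (A : Matrix ι ι ℚ) (D : Matrix κ κ ℚ) (c : ℚ), det D ≠ 0 →
      det (fromBlocks A (c • J ℚ ι κ) (c • J ℚ κ ι) D) =
      det A * det D - c ^ 2 * (det (A + J ℚ ι ι) - det A) * (det (D + J ℚ κ κ) - det D) := by
    intro A D c hD
    have hu : IsUnit D.det := isUnit_iff_ne_zero.mpr hD
    let _ := invertibleOfIsUnitDet D hu
    set κ0 : ℚ := ∑ k, ∑ l, D⁻¹ k l with hκ0
    have h1 : J ℚ ι κ * ⅟D * J ℚ κ ι = κ0 • J ℚ ι ι := by
      ext i j
      simp only [Matrix.mul_apply, J_apply, invOf_eq_nonsing_inv, one_mul, mul_one,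
        Matrix.smul_apply, smul_eq_mul, hκ0]
      exact Finset.sum_comm
    have h2 : det (D + J ℚ κ κ) = det D * (1 + κ0) := by
      have : J ℚ κ κ = J ℚ κ Unit * J ℚ Unit κ := by
        ext i j; simp [Matrix.mul_apply]
      rw [this, det_add_mul _ _ hu, det_unique (n := Unit)]
      congr 1
      simp only [Matrix.add_apply, one_apply_eq, Matrix.mul_apply, J_apply, one_mul, mul_one, hκ0]
      rw [Finset.sum_comm]
    rw [det_fromBlocks₂₂, Matrix.smul_mul, Matrix.smul_mul, Matrix.mul_smul, h1, smul_smul,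
      smul_smul, sub_eq_add_neg, ← neg_smul, det_add_smul_J, h2]
    ring
  have hc : ∀ {τ : Type} [Fintype τ] [DecidableEq τ] (M : Matrix τ τ ℤ),
      ((det M : ℤ) : ℚ) = det (M.map (Int.castRingHom ℚ)) := by
    intro τ _ _ M
    exact (Int.castRingHom ℚ).map_det M
  have h := main (A.map (Int.castRingHom ℚ)) (D.map (Int.castRingHom ℚ)) c
    (by rw [← hc]; exact_mod_cast hD)
  apply Int.cast_injective (α := ℚ)
  have e1 : (fromBlocks A (c • J ℤ ι κ) (c • J ℤ κ ι) D).map (Int.castRingHom ℚ) =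
      fromBlocks (A.map (Int.castRingHom ℚ)) ((c : ℚ) • J ℚ ι κ) ((c : ℚ) • J ℚ κ ι)
        (D.map (Int.castRingHom ℚ)) := by
    ext (i | i) (j | j) <;> simp [-zsmul_eq_mul]
  have e2 : (A + J ℤ ι ι).map (Int.castRingHom ℚ) = A.map (Int.castRingHom ℚ) + J ℚ ι ι := by
    ext i j; simp
  have e3 : (D + J ℤ κ κ).map (Int.castRingHom ℚ) = D.map (Int.castRingHom ℚ) + J ℚ κ κ := by
    ext i j; simp
  rw [Int.cast_sub, Int.cast_mul, Int.cast_mul, Int.cast_mul, Int.cast_sub, Int.cast_sub,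
    Int.cast_pow, hc, hc, hc, hc, hc, e1, e2, e3]
  exact h

variable {s u : ℕ → ℤ} {c : ℤ}
variable (hs0 : ∀ m, s (2 * m) = u m) (hs1 : ∀ m, s (2 * m + 1) = u m + c)
include hs0 hs1

lemma dd_even (m : ℕ) : dd s (2 * m) = c := by
  simp [dd, hs0, hs1]

lemma dd_odd (m : ℕ) : dd s (2 * m + 1) = dd u m - c := by
  have := hs0 (m + 1)
  rw [show 2 * (m + 1) = 2 * m + 1 + 1 by ring] at this
  simp [dd, this, hs1]; ring

lemma recS (t : ℤ) (a b : ℕ) (h1 : b ≤ a) (h2 : a ≤ b + 1) (hb : GG u b - 2 * c * EE u b ≠ 0) :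
    HH s (a + b) + t * KK s (a + b) =
      (HH u a + t * KK u a) * (GG u b - 2 * c * EE u b) - c ^ 2 * KK u a * EE u b := by
  rw [← detS, det_hm_evenodd s t a b h1 h2, det_blocks_op _ _ _ _ (Fin.castLE h1) (-1)]
  have e : fromBlocks (of fun i j : Fin a => s (2 * (i + j)) + t)
      (of fun (i : Fin a) (k : Fin b) =>
        (of fun (i : Fin a) (j : Fin b) => s (2 * (i + j) + 1) + t) i k +
          -1 * (of fun i j : Fin a => s (2 * (i + j)) + t) i (Fin.castLE h1 k))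
      (of fun (k : Fin b) (i : Fin a) =>
        (of fun (i : Fin b) (j : Fin a) => s (2 * (i + j) + 1) + t) k i +
          -1 * (of fun i j : Fin a => s (2 * (i + j)) + t) (Fin.castLE h1 k) i)
      (of fun k l : Fin b => (of fun i j : Fin b => s (2 * (i + j + 1)) + t) k l +
        -1 * (of fun (i : Fin a) (j : Fin b) => s (2 * (i + j) + 1) + t) (Fin.castLE h1 k) l +
        -1 * (of fun (i : Fin b) (j : Fin a) => s (2 * (i + j) + 1) + t) k (Fin.castLE h1 l) +
        -1 * -1 * (of fun i j : Fin a => s (2 * (i + j)) + t) (Fin.castLE h1 k)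
          (Fin.castLE h1 l)) =
      fromBlocks (hm u a + t • J ℤ (Fin a) (Fin a)) (c • J ℤ _ _) (c • J ℤ _ _)
        (hm (dd u) b + (-2 * c : ℤ) • J ℤ (Fin b) (Fin b)) := by
    ext (i | i) (j | j) <;> simp [hs0, hs1, dd, -zsmul_eq_mul]
    ring
  have hD : det (hm (dd u) b + (-2 * c : ℤ) • J ℤ (Fin b) (Fin b)) = GG u b - 2 * c * EE u b := by
    rw [detD]; ring
  have hD' : det (hm (dd u) b + (-2 * c : ℤ) • J ℤ (Fin b) (Fin b) + J ℤ (Fin b) (Fin b)) =
      GG u b + (1 - 2 * c) * EE u b := by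
    have : hm (dd u) b + (-2 * c : ℤ) • J ℤ (Fin b) (Fin b) + J ℤ (Fin b) (Fin b) =
        hm (dd u) b + (1 - 2 * c : ℤ) • J ℤ (Fin b) (Fin b) := by
      ext i j; simp [-zsmul_eq_mul]; ring
    rw [this, detD]
  have hS' : det (hm u a + t • J ℤ (Fin a) (Fin a) + J ℤ (Fin a) (Fin a)) =
      HH u a + (t + 1) * KK u a := by
    have : hm u a + t • J ℤ (Fin a) (Fin a) + J ℤ (Fin a) (Fin a) =
        hm u a + (t + 1) • J ℤ (Fin a) (Fin a) := by
      ext i j; simp [-zsmul_eq_mul]; ring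
    rw [this, detS]
  rw [e, det_couple' _ _ _ (by rw [hD]; exact hb), hD, hD', hS', detS]; ring

lemma recD_even (t : ℤ) (n : ℕ) :
    GG s (n + n) + t * EE s (n + n) =
      (-1) ^ n * (GG u n - 2 * c * EE u n) * (GG u n + 2 * t * EE u n) := by
  rw [← detD, det_hm_evenodd (dd s) t n n le_rfl (by omega)]
  have e : fromBlocks (of fun i j : Fin n => dd s (2 * (i + j)) + t)
        (of fun (i : Fin n) (j : Fin n) => dd s (2 * (i + j) + 1) + t)
        (of fun (i : Fin n) (j : Fin n) => dd s (2 * (i + j) + 1) + t)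
        (of fun i j : Fin n => dd s (2 * (i + j + 1)) + t) =
      fromBlocks ((c + t) • J ℤ (Fin n) (Fin n)) (hm (dd u) n + (t - c) • J ℤ (Fin n) (Fin n))
        (hm (dd u) n + (t - c) • J ℤ (Fin n) (Fin n)) ((c + t) • J ℤ (Fin n) (Fin n)) := by
    ext (i | i) (j | j) <;> simp [dd_even hs0 hs1, dd_odd hs0 hs1, -zsmul_eq_mul] <;> ring
  have e1 : (c + t) • J ℤ (Fin n) (Fin n) - (hm (dd u) n + (t - c) • J ℤ (Fin n) (Fin n)) =
      -(hm (dd u) n + (-2 * c : ℤ) • J ℤ (Fin n) (Fin n)) := by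
    ext i j; simp [-zsmul_eq_mul]; ring
  have e2 : (c + t) • J ℤ (Fin n) (Fin n) + (hm (dd u) n + (t - c) • J ℤ (Fin n) (Fin n)) =
      hm (dd u) n + (2 * t) • J ℤ (Fin n) (Fin n) := by
    ext i j; simp [-zsmul_eq_mul]; ring
  rw [e, det_sym_blocks, e1, e2, det_neg, detD, detD]
  rw [Fintype.card_fin]; ring

lemma recD_odd (t : ℤ) (n : ℕ) :
    GG s (n + n + 1) + t * EE s (n + n + 1) = (c + t) * (-1) ^ n * KK u (n + 1) ^ 2 := by
  rw [← detD, det_hm_reindex (dd s) t (n + n + 1) (τ := (Unit ⊕ Fin n) ⊕ Fin n)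
    (Sum.elim (Sum.elim (fun _ => 0) (fun i => 2 * ((i : ℕ) + 1))) (fun j => 2 * (j : ℕ) + 1))]
  · let k : (Unit ⊕ Fin n) ⊕ Fin n → ℤ := Sum.elim (Sum.elim (fun _ => 0) (fun _ => 1)) (fun _ => 0)
    let Z : Matrix (Fin n) (Fin n) ℤ := of fun i j : Fin n => dd u (i + 1 + j) - dd u j
    let w : Matrix Unit (Fin n) ℤ := of fun _ j => dd u j - c + t
    let M1 : Matrix ((Unit ⊕ Fin n) ⊕ Fin n) ((Unit ⊕ Fin n) ⊕ Fin n) ℤ :=
      fromBlocks (fromBlocks (of fun _ _ : Unit => c + t) (of fun _ _ => c + t) 0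
        (0 : Matrix (Fin n) (Fin n) ℤ)) (fromRows w Z)
        (fromCols wᵀ (of fun i j : Fin n => dd u (j + 1 + i) - c + t)) (of fun _ _ => c + t)
    let M2 : Matrix ((Unit ⊕ Fin n) ⊕ Fin n) ((Unit ⊕ Fin n) ⊕ Fin n) ℤ :=
      fromBlocks (fromBlocks (of fun _ _ : Unit => c + t) 0 0 (0 : Matrix (Fin n) (Fin n) ℤ))
        (fromRows w Z) (fromCols wᵀ Zᵀ) (of fun _ _ => c + t)
    have hev : ∀ m k : ℕ, k = 2 * m → dd s k = c := by
      rintro m k rfl; exact dd_even hs0 hs1 m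
    have hod : ∀ m k : ℕ, k = 2 * m + 1 → dd s k = dd u m - c := by
      rintro m k rfl; exact dd_odd hs0 hs1 m
    have e1 : det (of fun x y : (Unit ⊕ Fin n) ⊕ Fin n =>
        dd s (Sum.elim (Sum.elim (fun _ => 0) (fun i : Fin n => 2 * ((i : ℕ) + 1)))
          (fun j : Fin n => 2 * (j : ℕ) + 1) x +
          Sum.elim (Sum.elim (fun _ => 0) (fun i : Fin n => 2 * ((i : ℕ) + 1)))
          (fun j : Fin n => 2 * (j : ℕ) + 1) y) + t) = det M1 := by
      refine det_eq_of_forall_row_eq_smul_add_const k (Sum.inl (Sum.inl ())) (by simp [k]) ?_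
      rintro ((i | i) | i) ((j | j) | j) <;>
        simp only [M1, k, w, Z, of_apply, Sum.elim_inl, Sum.elim_inr, fromBlocks_apply₁₁,
          fromBlocks_apply₁₂, fromBlocks_apply₂₁, fromBlocks_apply₂₂, fromRows_apply_inl,
          fromRows_apply_inr, fromCols_apply_inl, fromCols_apply_inr, transpose_apply,
          Matrix.zero_apply]
      · rw [hev 0 _ (by ring)]; ring
      · rw [hev (j + 1) _ (by ring)]; ring
      · rw [hod j _ (by ring)]; ring
      · rw [hev (i + 1) _ (by ring)]; ring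
      · rw [hev (i + j + 2) _ (by ring)]; ring
      · rw [hod (i + 1 + j) _ (by ring)]; ring
      · rw [hod i _ (by ring)]; ring
      · rw [hod (j + 1 + i) _ (by ring)]; ring
      · rw [hev (i + j + 1) _ (by ring)]; ring
    have e2 : det M1 = det M2 := by
      refine det_col_const k (Sum.inl (Sum.inl ())) (by simp [k]) ?_
      rintro ((i | i) | i) ((j | j) | j) <;> simp [M1, M2, k, w, Z]
      ring
    rw [e1, e2, det_anti3, det_transpose, KK_succ]
    simp [Z]; ring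
  · rintro ((i | i) | i) ((j | j) | j) h <;> simp at h ⊢ <;> omega
  · rintro ((i | i) | i) <;> simp <;> omega
  · simp; ring

lemma G_even (n : ℕ) : GG s (2 * n) = (-1) ^ n * (GG u n - 2 * c * EE u n) * GG u n := by
  have := recD_even hs0 hs1 0 n
  rw [two_mul]; linarith

lemma E_even (n : ℕ) : EE s (2 * n) = (-1) ^ n * (GG u n - 2 * c * EE u n) * (2 * EE u n) := by
  have h0 := recD_even hs0 hs1 0 n
  have h1 := recD_even hs0 hs1 1 n
  rw [two_mul]; linarith

lemma G_odd (n : ℕ) : GG s (2 * n + 1) = c * (-1) ^ n * KK u (n + 1) ^ 2 := by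
  have := recD_odd hs0 hs1 0 n
  rw [two_mul]; linarith

lemma E_odd (n : ℕ) : EE s (2 * n + 1) = (-1) ^ n * KK u (n + 1) ^ 2 := by
  have h0 := recD_odd hs0 hs1 0 n
  have h1 := recD_odd hs0 hs1 1 n
  rw [two_mul]; linarith

lemma H_rec (a b : ℕ) (h1 : b ≤ a) (h2 : a ≤ b + 1) (hb : GG u b - 2 * c * EE u b ≠ 0) :
    HH s (a + b) = HH u a * (GG u b - 2 * c * EE u b) - c ^ 2 * KK u a * EE u b := by
  have := recS hs0 hs1 0 a b h1 h2 hb
  linarith

lemma K_rec (a b : ℕ) (h1 : b ≤ a) (h2 : a ≤ b + 1) (hb : GG u b - 2 * c * EE u b ≠ 0) :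
    KK s (a + b) = KK u a * (GG u b - 2 * c * EE u b) := by
  have h0 := recS hs0 hs1 0 a b h1 h2 hb
  have h1 := recS hs0 hs1 1 a b h1 h2 hb
  linarith

end Pool.Agent.Lib.MP_47b218_nt.W
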